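import Pool.Agent.MP_ea150c_mp.H49.SpecK

/-! The untwisted Taylor formula for an elementary shift. -/

namespace Pool.Agent.MP_ea150c_mp.H19.T4uAux

open Pool.Agent.MP_ea150c_mp.H49

noncomputable section

variable {Λ σ : Type} [CommRing Λ] [Fintype σ] [DecidableEq σ] {tor : σ → Bool}

omit [Fintype σ] [DecidableEq σ] in
theorem supp_le {P : (σ → ℤ) → Prop} {M : Submodule Λ (Tor Λ tor)}
    (h : ∀ u : Mon tor, P u.1 → (AddMonoidAlgebra.single u 1 : Tor Λ tor) ∈ M) :
    supp tor Λ P ≤ M := by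
  intro z hz
  rw [← AddMonoidAlgebra.sum_coeff_single z]
  refine M.sum_mem fun u hu => ?_
  have e : (AddMonoidAlgebra.single u (z.coeff u) : Tor Λ tor) =
      z.coeff u • AddMonoidAlgebra.single u 1 := by
    rw [AddMonoidAlgebra.smul_single', mul_one]
  rw [e]
  exact M.smul_mem _ (h u (hz u (Finsupp.mem_support_iff.1 hu)))

omit [Fintype σ] [DecidableEq σ] in
theorem single_supp {P : (σ → ℤ) → Prop} (u : Mon tor) (h : P u.1) :
    (AddMonoidAlgebra.single u 1 : Tor Λ tor) ∈ supp tor Λ P := by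
  intro v hv
  by_cases e : u = v
  · rw [← e]; exact h
  · exact (hv (by simp [e])).elim

omit [Fintype σ] [DecidableEq σ] in
theorem monoZ_supp {P : (σ → ℤ) → Prop} (u : σ → ℤ) (h : P u) : monoZ tor Λ u ∈ supp tor Λ P := by
  unfold monoZ
  split_ifs with hu
  · exact single_supp ⟨u, hu⟩ h
  · exact Submodule.zero_mem _

omit [Fintype σ] [DecidableEq σ] in
theorem linOf_single {B : Type} [AddCommGroup B] [Module Λ B] (g : (σ → ℤ) → B) (u : Mon tor) :
    linOf tor g (AddMonoidAlgebra.single u (1 : Λ)) = g u.1 := by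
  simp [linOf]

variable (Λ tor) in
/-- elements of degree at most `d` in the variable `i` -/
def F (i : σ) (d : ℤ) : Submodule Λ (Tor Λ tor) := supp tor Λ fun u => u i ≤ d

variable {i : σ}

omit [Fintype σ] [DecidableEq σ] in
theorem F_mono {d e : ℤ} (h : d ≤ e) {z : Tor Λ tor} (hz : z ∈ F Λ tor i d) : z ∈ F Λ tor i e :=
  fun u hu => (hz u hu).trans h

omit [Fintype σ] [DecidableEq σ] in
theorem F_mul {d e : ℤ} {a b : Tor Λ tor} (ha : a ∈ F Λ tor i d) (hb : b ∈ F Λ tor i e) :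
    a * b ∈ F Λ tor i (d + e) := by
  refine supp_le (M := (F Λ tor i (d + e)).comap (LinearMap.mulRight Λ b)) (fun u hu => ?_) ha
  refine supp_le (M := (F Λ tor i (d + e)).comap
    (LinearMap.mulLeft Λ (AddMonoidAlgebra.single u 1 : Tor Λ tor))) (fun v hv => ?_) hb
  show (AddMonoidAlgebra.single u 1 : Tor Λ tor) * AddMonoidAlgebra.single v 1 ∈ F Λ tor i (d + e)
  rw [AddMonoidAlgebra.single_mul_single, one_mul]
  exact single_supp (u + v) (add_le_add hu hv)

omit [Fintype σ] [DecidableEq σ] in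
theorem F_one : (1 : Tor Λ tor) ∈ F Λ tor i 0 := by
  rw [AddMonoidAlgebra.one_def]
  exact single_supp 0 le_rfl

omit [Fintype σ] [DecidableEq σ] in
theorem F_pow {d : ℤ} {a : Tor Λ tor} (ha : a ∈ F Λ tor i d) (n : ℕ) :
    a ^ n ∈ F Λ tor i (n * d) := by
  induction n with
  | zero => simpa using F_one
  | succ n ih =>
    rw [pow_succ]
    exact F_mono (le_of_eq (by push_cast; ring)) (F_mul ih ha)

omit [Fintype σ] [DecidableEq σ] in
theorem F_neg (hi : tor i = false) {d : ℤ} (hd : d < 0) {z : Tor Λ tor} (hz : z ∈ F Λ tor i d) :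
    z = 0 := by
  have : F Λ tor i d ≤ ⊥ := supp_le fun u hu => by
    have h1 := u.2 i hi
    have h2 : u.1 i ≤ d := hu
    omega
  exact (Submodule.mem_bot Λ).1 (this hz)

omit [Fintype σ] [DecidableEq σ] in
theorem F_ex (z : Tor Λ tor) : ∃ d : ℕ, z ∈ F Λ tor i d := by
  induction z using AddMonoidAlgebra.induction_linear with
  | zero => exact ⟨0, Submodule.zero_mem _⟩
  | add a b ha hb =>
    obtain ⟨d, hd⟩ := ha
    obtain ⟨e, he⟩ := hb
    exact ⟨d + e, Submodule.add_mem _ (F_mono (by omega) hd) (F_mono (by omega) he)⟩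
  | single u r =>
    refine ⟨(u.1 i).toNat, ?_⟩
    have e : (AddMonoidAlgebra.single u r : Tor Λ tor) = r • AddMonoidAlgebra.single u 1 := by
      rw [AddMonoidAlgebra.smul_single', mul_one]
    rw [e]
    exact Submodule.smul_mem _ _ (single_supp u (Int.self_le_toNat _))

omit [Fintype σ] in
theorem F_x : tX tor Λ i ∈ F Λ tor i 1 := monoZ_supp _ (by simp)

omit [Fintype σ] in
theorem F_pd {d : ℤ} {z : Tor Λ tor} (hz : z ∈ F Λ tor i d) : pd tor Λ i z ∈ F Λ tor i (d - 1) := by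
  refine supp_le (M := (F Λ tor i (d - 1)).comap (pd tor Λ i)) (fun u hu => ?_) hz
  show pd tor Λ i (AddMonoidAlgebra.single u 1) ∈ F Λ tor i (d - 1)
  rw [pd, linOf_single]
  refine Submodule.smul_mem _ _ (monoZ_supp _ ?_)
  have h2 : u.1 i ≤ d := hu
  simp only [Pi.sub_apply, Pi.single_eq_same]
  omega

omit [Fintype σ] in
theorem F_pdn (n : ℕ) {d : ℤ} {z : Tor Λ tor} (hz : z ∈ F Λ tor i d) :
    (pd tor Λ i ^ n) z ∈ F Λ tor i (d - n) := by
  induction n with
  | zero => simpa using hz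
  | succ n ih =>
    rw [pow_succ', Module.End.mul_apply]
    exact F_mono (le_of_eq (by push_cast; ring)) (F_pd ih)

omit [Fintype σ] [DecidableEq σ] in
theorem F_psi {p : ℕ} (hp : 2 ≤ p) {d e : ℤ} (h : d + 1 < (e + 2) * p) {z : Tor Λ tor}
    (hz : z ∈ F Λ tor i d) : psi0 tor Λ p z ∈ F Λ tor i e := by
  refine supp_le (M := (F Λ tor i e).comap (psi0 tor Λ p)) (fun u hu => ?_) hz
  show psi0 tor Λ p (AddMonoidAlgebra.single u 1) ∈ F Λ tor i e
  rw [psi0, linOf_single]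
  split_ifs
  · refine monoZ_supp _ ?_
    have h2 : u.1 i ≤ d := hu
    have h3 : (u.1 i + 1) / (p : ℤ) < e + 2 :=
      Int.ediv_lt_of_lt_mul (by omega) (by omega)
    show (u.1 i + 1) / (p : ℤ) - 1 ≤ e
    omega
  · exact Submodule.zero_mem _

omit [Fintype σ] [DecidableEq σ] in
theorem F_phi (p : ℕ) {z : Tor Λ tor} (hz : z ∈ F Λ tor i 0) : phi0 tor Λ p z ∈ F Λ tor i 0 := by
  refine supp_le (M := (F Λ tor i 0).comap (phi0 tor Λ p).toLinearMap) (fun u hu => ?_) hz
  show phi0 tor Λ p (AddMonoidAlgebra.single u 1) ∈ F Λ tor i 0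
  have e : phi0 tor Λ p (AddMonoidAlgebra.single u 1) = AddMonoidAlgebra.single (p • u) 1 := by
    simp [phi0]
  rw [e]
  refine single_supp _ ?_
  have h2 : u.1 i ≤ 0 := hu
  show (p • u.1) i ≤ 0
  simp only [Pi.smul_apply, nsmul_eq_mul]
  exact mul_nonpos_of_nonneg_of_nonpos (by positivity) h2

omit [Fintype σ] in
theorem F_shift {g : Tor Λ tor} (hg : g ∈ F Λ tor i 0) (n : ℕ) :
    (tX tor Λ i + g) ^ n - tX tor Λ i ^ n ∈ F Λ tor i (n - 1) := by
  induction n with
  | zero => simp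
  | succ n ih =>
    have e : (tX tor Λ i + g) ^ (n + 1) - tX tor Λ i ^ (n + 1) =
        (tX tor Λ i + g) * ((tX tor Λ i + g) ^ n - tX tor Λ i ^ n) + g * tX tor Λ i ^ n := by ring
    rw [e]
    refine Submodule.add_mem _ (F_mono (le_of_eq (by push_cast; ring))
      (F_mul (Submodule.add_mem _ F_x (F_mono zero_le_one hg)) ih)) ?_
    exact F_mono (le_of_eq (by push_cast; ring)) (F_mul hg (F_pow F_x n))

theorem mono_split (u : Mon tor) (k : ℕ) (hk : (k : ℤ) ≤ u.1 i) : ∃ v : Mon tor,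
    v.1 i = u.1 i - k ∧ (AddMonoidAlgebra.single u 1 : Tor Λ tor) =
      tX tor Λ i ^ k * AddMonoidAlgebra.single v 1 := by
  refine ⟨⟨u.1 - Pi.single i (k : ℤ), fun l hl => ?_⟩, by simp, ?_⟩
  · by_cases h : l = i
    · subst h; simpa using hk
    · simpa [Pi.single_apply, h] using u.2 l hl
  · simp only [tX, monoZ, dif_pos (single_mem tor i), AddMonoidAlgebra.single_pow, one_pow,
      AddMonoidAlgebra.single_mul_single, one_mul]
    congr 1
    ext l
    by_cases h : l = i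
    · subst h; simp
    · simp [Pi.single_apply, h]

theorem fix0 (hi : tor i = false) (s : Tor Λ tor →ₐ[Λ] Tor Λ tor)
    (hs : ∀ l, l ≠ i → s (tX tor Λ l) = tX tor Λ l) {z : Tor Λ tor} (hz : z ∈ F Λ tor i 0) :
    s z = z := by
  have hinv : ∀ l, l ≠ i → s (tXi tor Λ l) = tXi tor Λ l := by
    intro l hl
    cases ht : tor l
    · have : tXi tor Λ l = 0 := by
        unfold tXi monoZ
        rw [dif_neg]
        intro hm
        have := hm l ht
        simp at this
      simp [this]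
    · have e2 := tX_mul_tXi (Λ := Λ) tor l ht
      have e1 : tX tor Λ l * s (tXi tor Λ l) = 1 := by
        rw [← hs l hl, ← map_mul, e2, map_one]
      calc s (tXi tor Λ l) = s (tXi tor Λ l) * (tX tor Λ l * tXi tor Λ l) := by rw [e2, mul_one]
        _ = (tX tor Λ l * s (tXi tor Λ l)) * tXi tor Λ l := by ring
        _ = tXi tor Λ l := by rw [e1, one_mul]
  refine supp_le (M := LinearMap.eqLocus s.toLinearMap LinearMap.id) (fun u hu => ?_) hz
  show s (AddMonoidAlgebra.single u 1) = AddMonoidAlgebra.single u 1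
  have h1 := u.2 i hi
  have h2 : u.1 i ≤ 0 := hu
  have h0 : u.1 i = 0 := by omega
  rw [mono_eq_prod, map_prod]
  refine Finset.prod_congr rfl fun l _ => ?_
  by_cases h : l = i
  · subst h
    simp [h0]
  · rw [map_mul, map_pow, map_pow, hs l h, hinv l h]

/-- a shift changes an element only in lower degree -/
theorem shift_low (hi : tor i = false) (t : Tor Λ tor →ₐ[Λ] Tor Λ tor) {g : Tor Λ tor}
    (hg : g ∈ F Λ tor i 0) (hx : t (tX tor Λ i) = tX tor Λ i + g)
    (ht : ∀ l, l ≠ i → t (tX tor Λ l) = tX tor Λ l) {d : ℤ} {z : Tor Λ tor}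
    (hz : z ∈ F Λ tor i d) : t z - z ∈ F Λ tor i (d - 1) := by
  refine supp_le (M := (F Λ tor i (d - 1)).comap (t.toLinearMap - LinearMap.id))
    (fun u hu => ?_) hz
  show t (AddMonoidAlgebra.single u 1) - AddMonoidAlgebra.single u 1 ∈ F Λ tor i (d - 1)
  have h1 := u.2 i hi
  have h2 : u.1 i ≤ d := hu
  obtain ⟨v, hv, e⟩ := mono_split (Λ := Λ) (i := i) u (u.1 i).toNat (by omega)
  have hv0 : (AddMonoidAlgebra.single v 1 : Tor Λ tor) ∈ F Λ tor i 0 :=
    single_supp v (by show v.1 i ≤ 0; omega)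
  rw [e, map_mul, map_pow, hx, fix0 hi t ht hv0, ← sub_mul]
  exact F_mono (by omega) (F_mul (F_shift hg _) hv0)

omit [Fintype σ] in
theorem pdn_x (hL : ∀ a b, pd tor Λ i (a * b) = pd tor Λ i a * b + a * pd tor Λ i b)
    (h1 : pd tor Λ i (tX tor Λ i) = 1) (n : ℕ) (w : Tor Λ tor) :
    (pd tor Λ i ^ (n + 1)) (tX tor Λ i * w) =
      tX tor Λ i * (pd tor Λ i ^ (n + 1)) w + ((n + 1 : ℕ) : Λ) • (pd tor Λ i ^ n) w := by
  induction n with
  | zero => simp [hL, h1, add_comm]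
  | succ n ih =>
    rw [pow_succ' (pd tor Λ i) (n + 1), Module.End.mul_apply, ih, map_add, hL, h1, map_smul,
      ← Module.End.mul_apply, ← Module.End.mul_apply, ← pow_succ', ← pow_succ', one_mul]
    push_cast
    rw [add_smul ((n : Λ) + 1) 1, one_smul]
    abel

variable [Algebra ℚ Λ]

/-- the Taylor coefficient -/
def cf (Λ : Type) [CommRing Λ] [Algebra ℚ Λ] (n : ℕ) : Λ :=
  algebraMap ℚ Λ ((-1) ^ n / (n.factorial : ℚ))

theorem cf_succ (n : ℕ) : cf Λ (n + 1) * ((n + 1 : ℕ) : Λ) = -cf Λ n := by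
  unfold cf
  rw [← map_natCast (algebraMap ℚ Λ), ← map_mul, ← map_neg]
  congr 1
  rw [Nat.factorial_succ]
  have h1 : (n.factorial : ℚ) ≠ 0 := by positivity
  push_cast
  field_simp
  ring

theorem cf_zero : cf Λ 0 = 1 := by simp [cf]

/-- the terms of the right side -/
def Tm (p : ℕ) (i : σ) (Th : Tor Λ tor) (n : ℕ) : Tor Λ tor →ₗ[Λ] Tor Λ tor :=
  cf Λ n • ((pd tor Λ i ^ n) ∘ₗ psi0 tor Λ p ∘ₗ LinearMap.mulLeft Λ (Th ^ n))

omit [Fintype σ] in
theorem Tm_apply (p : ℕ) (Th : Tor Λ tor) (n : ℕ) (z : Tor Λ tor) :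
    Tm p i Th n z = cf Λ n • (pd tor Λ i ^ n) (psi0 tor Λ p (Th ^ n * z)) := rfl

/-- elements on which the formula holds -/
def Good (p : ℕ) (i : σ) (Th : Tor Λ tor) (L : Tor Λ tor →ₗ[Λ] Tor Λ tor) :
    Submodule Λ (Tor Λ tor) where
  carrier := {z | ∃ N₀, ∀ N ≥ N₀, L z = ∑ n ∈ Finset.range N, Tm p i Th n z}
  zero_mem' := ⟨0, fun N _ => by simp⟩
  add_mem' := by
    rintro a b ⟨N₁, h₁⟩ ⟨N₂, h₂⟩
    refine ⟨N₁ + N₂, fun N hN => ?_⟩
    rw [map_add, h₁ N (by omega), h₂ N (by omega), ← Finset.sum_add_distrib]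
    simp only [map_add]
  smul_mem' := by
    rintro c a ⟨N₁, h₁⟩
    refine ⟨N₁, fun N hN => ?_⟩
    rw [map_smul, h₁ N hN, Finset.smul_sum]
    simp only [map_smul]

omit [Fintype σ] in
theorem tele {p : ℕ} {Th : Tor Λ tor}
    (hL : ∀ a b, pd tor Λ i (a * b) = pd tor Λ i a * b + a * pd tor Λ i b)
    (h1 : pd tor Λ i (tX tor Λ i) = 1)
    (hψ : ∀ b, psi0 tor Λ p (tX tor Λ i ^ p * b) = tX tor Λ i * psi0 tor Λ p b)
    (w : Tor Λ tor) (N : ℕ) :
    ∑ n ∈ Finset.range (N + 1), Tm p i Th n ((tX tor Λ i ^ p + Th) * w) =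
      tX tor Λ i * ∑ n ∈ Finset.range (N + 1), Tm p i Th n w +
        cf Λ N • (pd tor Λ i ^ N) (psi0 tor Λ p (Th ^ (N + 1) * w)) := by
  have key : ∀ n, psi0 tor Λ p (Th ^ n * ((tX tor Λ i ^ p + Th) * w)) =
      tX tor Λ i * psi0 tor Λ p (Th ^ n * w) + psi0 tor Λ p (Th ^ (n + 1) * w) := by
    intro n
    rw [← hψ, ← map_add]
    congr 1
    ring
  induction N with
  | zero => simp [Tm_apply, cf_zero, ← hψ, add_mul]
  | succ N ih =>
    rw [Finset.sum_range_succ, ih, Finset.sum_range_succ _ (N + 1), Tm_apply, Tm_apply, key,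
      map_add, pdn_x hL h1, smul_add, smul_add, smul_smul, cf_succ, mul_add, mul_smul_comm,
      neg_smul]
    abel

end

end Pool.Agent.MP_ea150c_mp.H19.T4uAux

namespace Pool.Agent.MP_ea150c_mp.H19

open Pool.Agent.MP_ea150c_mp.H49 T4uAux

theorem t4u (s1 : S1) : T4u := by
  intro p hp Λ σ _ _ _ _ tor s i g hi hg0 hx hs z
  obtain ⟨hL, hX, -, hφ, -, hψ, -⟩ := s1 Λ σ tor
  have hg : g ∈ F Λ tor i 0 := fun u hu => le_of_eq (hg0 u hu)
  have h1 : pd tor Λ i (tX tor Λ i) = 1 := by rw [hX, if_pos rfl]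
  have hψx : ∀ b, psi0 tor Λ p (tX tor Λ i ^ p * b) = tX tor Λ i * psi0 tor Λ p b := by
    intro b
    rw [← hφ p i, hψ p (by omega)]
  have hfix : ∀ z ∈ F Λ tor i 0, s z = z := fun z hz => fix0 hi s.toAlgHom hs hz
  have hfix' : ∀ z ∈ F Λ tor i 0, s.symm z = z := fun z hz => by
    rw [AlgEquiv.symm_apply_eq, hfix z hz]
  have hx' : s.symm (tX tor Λ i) = tX tor Λ i + -g := by
    rw [AlgEquiv.symm_apply_eq, map_add, map_neg, hx, hfix g hg]
    ring
  have hs' : ∀ l, l ≠ i → s.symm (tX tor Λ l) = tX tor Λ l := fun l hl => by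
    rw [AlgEquiv.symm_apply_eq, hs l hl]
  set Th := (tX tor Λ i + g) ^ p - phi0 tor Λ p g - tX tor Λ i ^ p with hTh
  have hThF : Th ∈ F Λ tor i (p - 1) := by
    have e : Th = ((tX tor Λ i + g) ^ p - tX tor Λ i ^ p) - phi0 tor Λ p g := by rw [hTh]; ring
    rw [e]
    exact Submodule.sub_mem _ (F_shift hg p) (F_mono (by omega) (F_phi p hg))
  set L : Tor Λ tor →ₗ[Λ] Tor Λ tor :=
    s.toLinearMap ∘ₗ psi0 tor Λ p ∘ₗ s.symm.toLinearMap with hLdef
  have hLa : ∀ z, L z = s (psi0 tor Λ p (s.symm z)) := fun z => rfl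
  have hy : s.symm (tX tor Λ i ^ p + Th) = phi0 tor Λ p (tX tor Λ i + -g) := by
    have e : tX tor Λ i ^ p + Th = s (tX tor Λ i) ^ p - phi0 tor Λ p g := by rw [hTh, hx]; ring
    rw [e, map_sub, map_pow, AlgEquiv.symm_apply_apply, hfix' _ (F_phi p hg), map_add, map_neg,
      hφ]
    ring
  have hLy : ∀ w, L ((tX tor Λ i ^ p + Th) * w) = tX tor Λ i * L w := by
    intro w
    rw [hLa, hLa, map_mul, hy, hψ p (by omega), map_mul, ← hx', AlgEquiv.apply_symm_apply]
  have step : ∀ w ∈ Good p i Th L, (tX tor Λ i ^ p + Th) * w ∈ Good p i Th L := by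
    rintro w ⟨N₀, hN₀⟩
    obtain ⟨d, hd⟩ := F_ex (i := i) w
    refine ⟨N₀ + d + 2, fun N hN => ?_⟩
    obtain ⟨M, rfl⟩ : ∃ M, N = M + 1 := ⟨N - 1, by omega⟩
    rw [tele (hL i) h1 hψx, hLy, hN₀ (M + 1) (by omega)]
    have hz : (pd tor Λ i ^ M) (psi0 tor Λ p (Th ^ (M + 1) * w)) = 0 := by
      have h2 := F_mul (F_pow hThF (M + 1)) hd
      have h3 := F_psi (e := (M : ℤ) - 1) hp (by
        have : (d : ℤ) < M := by omega
        push_cast
        nlinarith) h2
      exact F_neg hi (by omega) (F_pdn M h3)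
    rw [hz, smul_zero, add_zero]
  have base : ∀ z ∈ F Λ tor i (p - 1), z ∈ Good p i Th L := by
    intro z hz
    refine ⟨1, fun N hN => ?_⟩
    have h2 : psi0 tor Λ p z ∈ F Λ tor i 0 := F_psi hp (by omega) hz
    have h3 : psi0 tor Λ p (s.symm z - z) = 0 :=
      F_neg hi (d := -1) (by omega) (F_psi hp (by omega)
        (shift_low hi s.symm.toAlgHom (Submodule.neg_mem _ hg) hx' hs' hz))
    rw [map_sub, sub_eq_zero] at h3
    rw [hLa, h3, hfix _ h2, Finset.sum_eq_single 0]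
    · simp [Tm_apply, cf_zero]
    · intro n _ hn
      have h4 := F_mul (F_pow hThF n) hz
      have h5 := F_psi (e := (n : ℤ) - 1) hp (by
        have : (1 : ℤ) ≤ n := by omega
        nlinarith) h4
      rw [Tm_apply, F_neg hi (by omega) (F_pdn n h5), smul_zero]
    · intro h
      exact (h (Finset.mem_range.2 (by omega))).elim
  have all : ∀ d : ℕ, F Λ tor i (p - 1 + d) ≤ Good p i Th L := by
    intro d
    induction d with
    | zero => exact fun z hz => base z (by simpa using hz)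
    | succ d ih =>
      refine supp_le fun u hu => ?_
      have h2 : u.1 i ≤ p - 1 + ((d + 1 : ℕ) : ℤ) := hu
      by_cases h3 : u.1 i ≤ p - 1 + d
      · exact ih (single_supp u h3)
      · obtain ⟨v, hv, e⟩ := mono_split (Λ := Λ) (i := i) u p (by omega)
        have hv0 : (AddMonoidAlgebra.single v 1 : Tor Λ tor) ∈ F Λ tor i d :=
          single_supp v (by show v.1 i ≤ d; push_cast at h2; omega)
        have e2 : tX tor Λ i ^ p * (AddMonoidAlgebra.single v 1 : Tor Λ tor) =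
            (tX tor Λ i ^ p + Th) * AddMonoidAlgebra.single v 1 -
              Th * AddMonoidAlgebra.single v 1 := by ring
        rw [e, e2]
        exact Submodule.sub_mem _ (step _ (ih (F_mono (by omega) hv0))) (ih (F_mul hThF hv0))
  obtain ⟨d, hd⟩ := F_ex (i := i) z
  exact all d (F_mono (by omega) hd)

end Pool.Agent.MP_ea150c_mp.H19
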