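import Pool.Agent.MP_ea150c_mp.H49.SpecG
import Pool.Agent.MP_ea150c_mp.H19.T4u

/-! The augmented Cech complex of monomials is exact. -/

namespace Pool.Agent.MP_ea150c_mp.H19.CMAux

open Pool.Agent.MP_ea150c_mp.H49 T4uAux

noncomputable section

variable {I τ ι : Type} [LinearOrder I] [Fintype I] [Fintype τ] [DecidableEq τ]

theorem wt_sum (M : Model I τ ι) (u : Var I τ → ℤ) :
    (M.wt u).2.2.1 + (M.wt u).2.2.2 =
      ∑ v : I, (2 * u (Sum.inl (v, 3)) - 2 * u (Sum.inl (v, 0))) := by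
  simp only [Model.wt, Prod.snd_sum, Prod.fst_sum, Prod.smul_snd, Prod.smul_fst, smul_eq_mul]
  rw [← Finset.sum_add_distrib, Fintype.sum_sum_type, Fintype.sum_prod_type]
  have h2 : ∑ t : τ, (u (Sum.inr t) * (M.wtv (Sum.inr t)).2.2.1 +
      u (Sum.inr t) * (M.wtv (Sum.inr t)).2.2.2) = 0 := by
    simp [Model.wtv]
  rw [h2, add_zero]
  refine Finset.sum_congr rfl fun v _ => ?_
  simp [Fin.sum_univ_four, Model.wtv]
  ring

theorem ex_nonneg (M : Model I τ ι) {w : Gam I} (hw : w.2.2.1 + w.2.2.2 < 2 * Fintype.card I)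
    (u : Mon (torV : Var I τ → Bool)) (hu : M.wt u.1 = w) : ∃ v, 0 ≤ u.1 (Sum.inl (v, 0)) := by
  by_contra hn
  rw [not_exists] at hn
  have h1 : ∑ _v : I, (2 : ℤ) ≤ ∑ v : I, (2 * u.1 (Sum.inl (v, 3)) - 2 * u.1 (Sum.inl (v, 0))) := by
    refine Finset.sum_le_sum fun v _ => ?_
    have h2 := u.2 (Sum.inl (v, 3)) (by simp [torV])
    have h3 := hn v
    omega
  rw [← wt_sum M, hu, Finset.sum_const, Finset.card_univ, nsmul_eq_mul] at h1
  omega

open Classical in
/-- a vertex without pole -/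
def sel (u : Var I τ → ℤ) : Option I :=
  if h : ∃ v, 0 ≤ u (Sum.inl (v, 0)) then some h.choose else none

theorem sel_spec {u : Var I τ → ℤ} {j : I} (h : sel u = some j) : 0 ≤ u (Sum.inl (j, 0)) := by
  unfold sel at h
  split_ifs at h with h1
  rw [← Option.some.inj h]
  exact h1.choose_spec

theorem sel_ex {u : Var I τ → ℤ} (h : ∃ v, 0 ≤ u (Sum.inl (v, 0))) : ∃ j, sel u = some j :=
  ⟨h.choose, by unfold sel; rw [dif_pos h]⟩

variable (Λ : Type) [CommRing Λ]

/-- the projection on the monomials that select `j` -/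
def pr (τ : Type) (j : I) : Zr Λ I τ →ₗ[Λ] Zr Λ I τ :=
  linOf torV fun u => if sel u = some j then monoZ torV Λ u else 0

theorem pr_sum (M : Model I τ ι) {w : Gam I} (hw : w.2.2.1 + w.2.2.2 < 2 * Fintype.card I)
    {J : Finset I} {z : Zr Λ I τ} (hz : z ∈ M.Zp Λ J w) : ∑ j, pr Λ τ j z = z := by
  have key : M.Zp Λ J w ≤ LinearMap.eqLocus (∑ j, pr Λ τ j) LinearMap.id := by
    refine supp_le fun u hu => ?_
    obtain ⟨j, hj⟩ := sel_ex (ex_nonneg M hw u hu.2)
    show (∑ j, pr Λ τ j) (AddMonoidAlgebra.single u 1) = AddMonoidAlgebra.single u 1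
    rw [LinearMap.sum_apply, Finset.sum_eq_single j]
    · rw [pr, linOf_single, if_pos hj, monoZ, dif_pos u.2]
    · intro k _ hk
      rw [pr, linOf_single, if_neg]
      rw [hj]
      exact fun e => hk (Option.some.inj e).symm
    · exact fun h => (h (Finset.mem_univ _)).elim
  have h1 : (∑ j, pr Λ τ j) z = z := key hz
  rwa [LinearMap.sum_apply] at h1

theorem pr_mem (M : Model I τ ι) {w : Gam I} {J : Finset I} {j : I} {z : Zr Λ I τ}
    (hz : z ∈ M.Zp Λ (insert j J) w) : pr Λ τ j z ∈ M.Zp Λ J w := by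
  refine supp_le (M := (M.Zp Λ J w).comap (pr Λ τ j)) (fun u hu => ?_) hz
  show pr Λ τ j (AddMonoidAlgebra.single u 1) ∈ M.Zp Λ J w
  rw [pr, linOf_single]
  split_ifs with h
  · refine monoZ_supp _ ⟨fun v hv => ?_, hu.2⟩
    by_cases e : v = j
    · rw [e]; exact sel_spec h
    · exact hu.1 v fun h2 => (Finset.mem_insert.1 h2).elim e hv
  · exact Submodule.zero_mem _

omit [Fintype I] in
theorem dl_map {E : Type} [AddCommGroup E] [Module Λ E] (L : E →ₗ[Λ] E) (x : Finset I → E) :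
    dl Λ E (fun J => L (x J)) = fun J => L (dl Λ E x J) := by
  funext J
  simp [dl]

end

end Pool.Agent.MP_ea150c_mp.H19.CMAux

namespace Pool.Agent.MP_ea150c_mp.H19

open Pool.Agent.MP_ea150c_mp.H49 CMAux

theorem cm (c1 : C1) : CM := by
  intro I τ ι _ _ _ _ _ _ M _ Λ _ w hw x hx h0
  refine ⟨∑ j : I, fun J => if j ∈ J then 0 else
    ((-1 : Λ) ^ (J.filter (· < j)).card) • pr Λ τ j (x (insert j J)), fun J => ?_, ?_⟩
  · rw [Finset.sum_apply]
    refine Submodule.sum_mem _ fun j _ => ?_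
    split_ifs
    · exact Submodule.zero_mem _
    · exact Submodule.smul_mem _ _ (pr_mem Λ M (hx _))
  · rw [map_sum]
    have key : ∀ j : I, dl Λ (Zr Λ I τ) (fun J => if j ∈ J then 0 else
        ((-1 : Λ) ^ (J.filter (· < j)).card) • pr Λ τ j (x (insert j J))) =
        fun J => pr Λ τ j (x J) := by
      intro j
      have h1 := (c1 Λ (Zr Λ I τ) I).2.1 j fun J => pr Λ τ j (x J)
      rw [dl_map, h0] at h1
      rw [h1]
      funext J
      simp
    simp only [key]
    funext J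
    rw [Finset.sum_apply]
    exact pr_sum Λ M hw (hx J)

end Pool.Agent.MP_ea150c_mp.H19
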