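import Pool.Agent.MP_ea150c_mp.H20.SpecR

/-! Vanishing of Hankel determinants. -/

namespace Pool.Agent.MP_ea150c_mp.H19

open Polynomial Pool.Agent.MP_ea150c_mp.H20

section Ultra
variable {K : Type} [NormedField K] [IsUltrametricDist K]

/-- A closed ball around the origin. -/
def hb (K : Type) [NormedField K] [IsUltrametricDist K] {ρ : ℝ} (h : 0 ≤ ρ) : AddSubgroup K where
  carrier := {x | ‖x‖ ≤ ρ}
  add_mem' := fun {a b} ha hb => (IsUltrametricDist.norm_add_le_max a b).trans (max_le ha hb)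
  zero_mem' := by simpa using h
  neg_mem' := fun {a} ha => by simpa using ha

theorem hk_mul {f g : K[X]} (hf : ∀ l, ‖f.coeff l‖ ≤ 1) (hg : ∀ l, ‖g.coeff l‖ ≤ 1) (l : ℕ) :
    ‖(f * g).coeff l‖ ≤ 1 := by
  rw [coeff_mul]
  refine sum_mem (S := hb K zero_le_one) fun x _ => ?_
  change ‖_‖ ≤ 1
  rw [norm_mul]
  exact mul_le_one₀ (hf _) (norm_nonneg _) (hg _)

theorem hk_prod (B : Multiset K) (hB : ∀ γ ∈ B, ‖γ‖ ≤ 1) :
    ∀ l, ‖(B.map fun γ => X - C γ).prod.coeff l‖ ≤ 1 := by
  induction B using Multiset.induction_on with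
  | empty =>
    intro l
    rw [Multiset.map_zero, Multiset.prod_zero, coeff_one]
    split_ifs <;> simp
  | cons a B ih =>
    rw [Multiset.map_cons, Multiset.prod_cons]
    refine hk_mul (fun l => ?_) (ih fun γ hγ => hB γ (Multiset.mem_cons_of_mem hγ))
    rw [coeff_sub]
    refine (hb K zero_le_one).sub_mem ?_ ?_
    · change ‖_‖ ≤ 1
      rw [coeff_X]
      split_ifs <;> simp
    · change ‖_‖ ≤ 1
      rw [coeff_C]
      split_ifs
      · exact hB a (Multiset.mem_cons_self _ _)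
      · simp

omit [IsUltrametricDist K] in
theorem hk_ps (q : K[X]) {m : ℕ} (hm : q.natDegree < m) (s : Multiset K) (k : ℕ) :
    ∑ l ∈ Finset.range m, ps s (k + l) * q.coeff l = (s.map fun γ => γ ^ k * q.eval γ).sum := by
  induction s using Multiset.induction_on with
  | empty => simp [ps]
  | cons a s ih =>
    rw [Multiset.map_cons, Multiset.sum_cons, ← ih, eval_eq_sum_range' hm, Finset.mul_sum,
      ← Finset.sum_add_distrib]
    refine Finset.sum_congr rfl fun l _ => ?_
    simp only [ps, Multiset.map_cons, Multiset.sum_cons]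
    ring

theorem hk_eval {q : K[X]} (hq : ∀ l, ‖q.coeff l‖ ≤ 1) {γ : K} (hγ : ‖γ‖ ≤ 1) :
    ‖q.eval γ‖ ≤ 1 := by
  rw [eval_eq_sum_range]
  refine sum_mem (S := hb K zero_le_one) fun x _ => ?_
  change ‖_‖ ≤ 1
  rw [norm_mul, norm_pow]
  exact mul_le_one₀ (hq _) (by positivity) (pow_le_one₀ (norm_nonneg _) hγ)

theorem hk_det {m : ℕ} (A : Matrix (Fin m) (Fin m) K) (r : Fin m → ℝ) (hr : ∀ j, 0 ≤ r j)
    (h : ∀ i j, ‖A i j‖ ≤ r j) : ‖A.det‖ ≤ ∏ j, r j := by
  rw [Matrix.det_apply']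
  refine sum_mem (S := hb K (Finset.prod_nonneg fun j _ => hr j)) fun σ _ => ?_
  change ‖_‖ ≤ _
  rw [norm_mul, norm_prod]
  exact (mul_le_of_le_one_left (Finset.prod_nonneg fun _ _ => norm_nonneg _)
    (IsUltrametricDist.norm_intCast_le_one K _)).trans
    (Finset.prod_le_prod (fun _ _ => norm_nonneg _) fun j _ => h _ _)

open Classical in
theorem hk_small (c : ℕ → K) (hc : ∀ k, ‖c k‖ ≤ 1) {δ : ℝ} (h0 : 0 ≤ δ) (h1 : δ ≤ 1) (D e n : ℕ)
    (s t : Multiset K) (hs : ∀ γ ∈ s + t, ‖γ‖ ≤ 1)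
    (hD : ((s + t).filter fun γ => δ < ‖γ‖).card ≤ D)
    (he : ∀ k, n ≤ k → ‖c k - (ps s k - ps t k)‖ ≤ δ ^ n) :
    ‖(Matrix.of fun i j : Fin (D + e) => c (n + i + j)).det‖ ≤ (δ ^ n) ^ e := by
  set B := (s + t).filter fun γ => δ < ‖γ‖ with hB
  set P := (B.map fun γ => X - C γ).prod with hP
  have hPm : P.Monic := monic_multiset_prod_of_monic _ _ fun γ _ => monic_X_sub_C γ
  have hPd : P.natDegree = B.card := natDegree_multiset_prod_X_sub_C_eq_card B
  have hPc : ∀ l, ‖P.coeff l‖ ≤ 1 := hk_prod B fun γ hγ => hs γ (Multiset.mem_of_mem_filter hγ)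
  have hX : ∀ a l, ‖(X ^ a : K[X]).coeff l‖ ≤ 1 := fun a l => by
    rw [coeff_X_pow]
    split_ifs <;> simp
  obtain ⟨q, hq⟩ : ∃ q : Fin (D + e) → K[X],
      q = fun j : Fin (D + e) => if (j : ℕ) < D then X ^ (j : ℕ) else X ^ (j - B.card) * P :=
    ⟨_, rfl⟩
  have hqm : ∀ j, (q j).Monic := fun j => by
    simp only [hq]
    split_ifs
    · exact monic_X_pow _
    · exact (monic_X_pow _).mul hPm
  have hqd : ∀ j, (q j).natDegree = j := fun j => by
    simp only [hq]
    split_ifs with h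
    · exact natDegree_X_pow _
    · rw [(monic_X_pow _).natDegree_mul hPm, natDegree_X_pow, hPd]
      omega
  have hqc : ∀ j l, ‖(q j).coeff l‖ ≤ 1 := fun j l => by
    simp only [hq]
    split_ifs
    · exact hX _ _
    · exact hk_mul (hX _) hPc l
  have hρ : 0 ≤ δ ^ n := pow_nonneg h0 n
  rw [← mul_one (Matrix.det _), ← Matrix.det_matrixOfPolynomials q hqd hqm, ← Matrix.det_mul]
  refine (hk_det _ (fun j => if (j : ℕ) < D then 1 else δ ^ n) (fun j => ?_) fun i j => ?_).trans
    (le_of_eq ?_)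
  · split_ifs
    · exact zero_le_one
    · exact hρ
  · rw [Matrix.mul_apply]
    simp only [Matrix.of_apply]
    split_ifs with h
    · refine sum_mem (S := hb K zero_le_one) fun l _ => ?_
      change ‖_‖ ≤ 1
      rw [norm_mul]
      exact mul_le_one₀ (hc _) (norm_nonneg _) (hqc _ _)
    · have hlt : (q j).natDegree < D + e := by rw [hqd]; exact j.2
      have e1 : ∑ l : Fin (D + e), c (n + i + l) * (q j).coeff l =
          (∑ l ∈ Finset.range (D + e),
            (c (n + i + l) - (ps s (n + i + l) - ps t (n + i + l))) * (q j).coeff l) +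
          ((s.map fun γ => γ ^ (n + i) * (q j).eval γ).sum -
            (t.map fun γ => γ ^ (n + i) * (q j).eval γ).sum) := by
        rw [← hk_ps _ hlt, ← hk_ps _ hlt, ← Finset.sum_sub_distrib, ← Finset.sum_add_distrib,
          Fin.sum_univ_eq_sum_range (fun l => c (n + i + l) * (q j).coeff l)]
        exact Finset.sum_congr rfl fun l _ => by ring
      have e2 : ∀ γ ∈ s + t, γ ^ (n + i) * (q j).eval γ ∈ hb K hρ := fun γ hγ => by
        by_cases hb' : δ < ‖γ‖
        · have : P.eval γ = 0 := by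
            rw [hP, eval_multiset_prod, Multiset.prod_eq_zero_iff]
            simp only [Multiset.map_map, Multiset.mem_map]
            exact ⟨γ, Multiset.mem_filter.2 ⟨hγ, hb'⟩, by simp⟩
          simp only [hq, if_neg h, eval_mul, this, mul_zero]
          exact zero_mem _
        · change ‖_‖ ≤ _
          rw [norm_mul, norm_pow]
          exact (mul_le_of_le_one_right (by positivity) (hk_eval (hqc j) (hs γ hγ))).trans
            ((pow_le_pow_left₀ (norm_nonneg _) (not_lt.1 hb') _).trans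
              (pow_le_pow_of_le_one h0 h1 (Nat.le_add_right _ _)))
      rw [e1]
      refine (hb K hρ).add_mem (sum_mem fun l _ => ?_) (sub_mem ?_ ?_)
      · change ‖_‖ ≤ _
        rw [norm_mul]
        exact (mul_le_of_le_one_right (norm_nonneg _) (hqc _ _)).trans (he _ (by omega))
      · refine multiset_sum_mem _ fun x hx => ?_
        obtain ⟨γ, hγ, rfl⟩ := Multiset.mem_map.1 hx
        exact e2 γ (Multiset.mem_add.2 (Or.inl hγ))
      · refine multiset_sum_mem _ fun x hx => ?_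
        obtain ⟨γ, hγ, rfl⟩ := Multiset.mem_map.1 hx
        exact e2 γ (Multiset.mem_add.2 (Or.inr hγ))
  · rw [Fin.prod_univ_add]
    simp

end Ultra

theorem sHank : SHank := by
  intro p hp c C D hc h
  have hp1 : 1 < p := hp.out.one_lt
  have hp1' : (1 : ℝ) ≤ p := by exact_mod_cast hp1.le
  obtain ⟨m, hm⟩ : ∃ m, m = D + (C * D + 1) := ⟨_, rfl⟩
  refine ⟨m, m.factorial * p ^ (2 * C * m * m) + 1, fun n hn => ?_⟩
  obtain ⟨s, t, h1, h2, h3⟩ := h ((C + 1) * n)
  have hn1 : 1 ≤ n := by omega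
  have hK := hk_small (K := Kp p) (fun k => (c k : Kp p))
    (fun k => IsUltrametricDist.norm_intCast_le_one _ _) (δ := ((p : ℝ) ^ (C + 1))⁻¹)
    (by positivity) (inv_le_one_of_one_le₀ (one_le_pow₀ hp1')) D (C * D + 1) n s t h1 h2
    fun k hk => by
      rw [inv_pow, ← pow_mul]
      exact h3 k (hn1.trans hk)
  rw [← hm] at hK
  set z := (Matrix.of fun i j : Fin m => c (n + i + j)).det with hz
  have e1 : (Matrix.of fun i j : Fin m => (c (n + i + j) : Kp p)).det =
      algebraMap ℚ_[p] (Kp p) (z : ℚ_[p]) := by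
    rw [map_intCast, hz]
    exact ((Int.castRingHom (Kp p)).map_det _).symm
  rw [e1, PadicAlgCl.norm_extends, inv_pow, inv_pow, ← pow_mul, ← pow_mul, ← zpow_natCast,
    ← zpow_neg, Padic.norm_int_le_pow_iff_dvd] at hK
  have hA : |z| ≤ m.factorial • ((p : ℤ) ^ (C * (n + 2 * m))) ^ m := by
    have := Matrix.det_le (A := Matrix.of fun i j : Fin m => c (n + i + j))
      (abv := AbsoluteValue.abs) (x := (p : ℤ) ^ (C * (n + 2 * m))) fun i j => by
        refine (hc _ (by omega)).trans (pow_le_pow_right₀ (by exact_mod_cast hp1.le) ?_)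
        exact Nat.mul_le_mul_left _ (by omega)
    rwa [Fintype.card_fin] at this
  refine Int.eq_zero_of_abs_lt_dvd hK (hA.trans_lt ?_)
  have e2 : (C + 1) * (n * (C * D + 1)) = n + C * n * m := by
    rw [hm]
    ring
  have e3 : C * (n + 2 * m) * m = 2 * C * m * m + C * n * m := by ring
  have h4 : m.factorial * p ^ (2 * C * m * m) < p ^ n :=
    (Nat.lt_of_succ_le hn).trans (Nat.lt_pow_self hp1)
  rw [← pow_mul, e2, e3, nsmul_eq_mul, pow_add, pow_add, ← mul_assoc]
  refine mul_lt_mul_of_pos_right ?_ (by positivity)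
  exact_mod_cast h4

end Pool.Agent.MP_ea150c_mp.H19
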